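import Mathlib

/-!
# 10-critical graphs without `K_9` on `n` vertices with at most `5 * n - C` edges

The graphs are obtained by a chain of Hajós joins from many copies of `K_10` (in each of which two
disjoint edges are used) and, at the two ends, two copies of the join of `K_4`, `C_5`, `C_5`.
-/

set_option autoImplicit false

namespace Pool.Agent.Results.MP_e338b6_co.HajosChain

/-- `G` is `k`-critical: its chromatic number is `k`, and every proper subgraph has a smaller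
chromatic number. -/
def IsCritical {V : Type*} (G : SimpleGraph V) (k : ℕ) : Prop :=
  G.chromaticNumber = k ∧ ∀ H : G.Subgraph, H ≠ ⊤ → H.coe.chromaticNumber < k

/-- A working version of `(k + 1)`-criticality. -/
structure EC {V : Type*} (G : SimpleGraph V) (k : ℕ) : Prop where
  not_col : ¬ ∃ c : V → Fin k, ∀ a b, G.Adj a b → c a ≠ c b
  edge_col : ∀ u v, G.Adj u v → ∃ c : V → Fin k, c u = c v ∧
    ∀ a b, G.Adj a b → s(a, b) ≠ s(u, v) → c a ≠ c b
  two_nbrs : ∀ v w, ∃ x, x ≠ w ∧ G.Adj v x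

theorem EC.isCritical {V : Type*} [Nonempty V] {G : SimpleGraph V} {k : ℕ} (h : EC G k) :
    IsCritical G (k + 1) := by
  classical
  have hnc : ¬ G.Colorable k := by
    rintro ⟨c⟩
    exact h.not_col ⟨c, fun a b hab => c.valid hab⟩
  refine ⟨?_, ?_⟩
  · apply le_antisymm
    · obtain ⟨u⟩ := ‹Nonempty V›
      obtain ⟨v, -, huv⟩ := h.two_nbrs u u
      obtain ⟨c, hc1, hc2⟩ := h.edge_col u v huv
      have hcol : G.Colorable (k + 1) := by
        refine ⟨SimpleGraph.Coloring.mk (fun w => if w = u then Fin.last k else (c w).castSucc) ?_⟩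
        intro a b hab
        by_cases ha : a = u
        · have hb : b ≠ u := fun h => hab.ne (ha.trans h.symm)
          rw [if_pos ha, if_neg hb]
          exact (Fin.castSucc_lt_last _).ne'
        · by_cases hb : b = u
          · rw [if_neg ha, if_pos hb]
            exact (Fin.castSucc_lt_last _).ne
          · rw [if_neg ha, if_neg hb]
            intro heq
            refine hc2 a b hab ?_ (Fin.castSucc_injective _ heq)
            rw [Ne, Sym2.eq_iff]
            rintro (h | h)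
            · exact ha h.1
            · exact hb h.2
      exact_mod_cast hcol.chromaticNumber_le
    · by_contra hlt
      push Not at hlt
      apply hnc
      have h1 : G.chromaticNumber ≤ k := Order.le_of_lt_add_one (by exact_mod_cast hlt)
      exact SimpleGraph.chromaticNumber_le_iff_colorable.1 h1
  · intro H hH
    have hmiss : ∃ u v, G.Adj u v ∧ ¬ H.Adj u v := by
      by_contra hcon
      push Not at hcon
      apply hH
      rw [eq_top_iff]
      refine ⟨fun v _ => ?_, fun {u v} huv => hcon u v (by simpa using huv)⟩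
      obtain ⟨w, -, hvw⟩ := h.two_nbrs v v
      exact H.edge_vert (hcon v w hvw)
    obtain ⟨u, v, huv, hH⟩ := hmiss
    obtain ⟨c, hc1, hc2⟩ := h.edge_col u v huv
    have hcol : H.coe.Colorable k := by
      refine ⟨SimpleGraph.Coloring.mk (fun w => c w.1) ?_⟩
      intro a b hab
      have hab' : H.Adj a.1 b.1 := hab
      refine hc2 a.1 b.1 (H.adj_sub hab') ?_
      rw [Ne, Sym2.eq_iff]
      rintro (h | h)
      · apply hH
        rw [← h.1, ← h.2]
        exact hab'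
      · apply hH
        rw [← h.1, ← h.2]
        exact hab'.symm
    have := hcol.chromaticNumber_le
    exact lt_of_le_of_lt this (by exact_mod_cast Nat.lt_succ_self k)

section Hajos

variable {V₁ V₂ : Type} [DecidableEq V₂]

/-- The embedding of the second graph in the vertex set of the Hajós join. -/
def emb (x₁ : V₁) (x₂ : V₂) (v : V₂) : V₁ ⊕ {v : V₂ // v ≠ x₂} :=
  if h : v = x₂ then Sum.inl x₁ else Sum.inr ⟨v, h⟩

theorem emb_self (x₁ : V₁) (x₂ : V₂) : emb x₁ x₂ x₂ = Sum.inl x₁ := by simp [emb]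

theorem emb_ne (x₁ : V₁) (x₂ : V₂) {v : V₂} (h : v ≠ x₂) : emb x₁ x₂ v = Sum.inr ⟨v, h⟩ := by
  simp [emb, h]

theorem emb_inj (x₁ : V₁) (x₂ : V₂) : Function.Injective (emb x₁ x₂) := by
  intro a b h
  by_cases ha : a = x₂ <;> by_cases hb : b = x₂
  · rw [ha, hb]
  · rw [ha, emb_self, emb_ne x₁ x₂ hb] at h
    cases h
  · rw [hb, emb_self, emb_ne x₁ x₂ ha] at h
    cases h
  · rw [emb_ne x₁ x₂ ha, emb_ne x₁ x₂ hb] at h
    exact congrArg Subtype.val (Sum.inr.inj h)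

theorem emb_eq_inl (x₁ : V₁) (x₂ : V₂) {v : V₂} {a : V₁} (h : emb x₁ x₂ v = Sum.inl a) :
    v = x₂ ∧ a = x₁ := by
  by_cases hv : v = x₂
  · refine ⟨hv, ?_⟩
    rw [hv, emb_self] at h
    exact (Sum.inl.inj h).symm
  · rw [emb_ne x₁ x₂ hv] at h
    cases h

/-- The Hajós join of `G₁` and `G₂` along the edges `x₁y₁` and `x₂y₂`. -/
def hajos (G₁ : SimpleGraph V₁) (G₂ : SimpleGraph V₂) (x₁ y₁ : V₁) (x₂ y₂ : V₂) (hne : y₂ ≠ x₂) :
    SimpleGraph (V₁ ⊕ {v : V₂ // v ≠ x₂}) where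
  Adj u v :=
    (∃ a b, G₁.Adj a b ∧ s(a, b) ≠ s(x₁, y₁) ∧ u = Sum.inl a ∧ v = Sum.inl b) ∨
    (∃ a b, G₂.Adj a b ∧ s(a, b) ≠ s(x₂, y₂) ∧ u = emb x₁ x₂ a ∧ v = emb x₁ x₂ b) ∨
    (u = Sum.inl y₁ ∧ v = emb x₁ x₂ y₂) ∨ (u = emb x₁ x₂ y₂ ∧ v = Sum.inl y₁)
  symm := ⟨by
    rintro u v (⟨a, b, h, hn, hu, hv⟩ | ⟨a, b, h, hn, hu, hv⟩ | ⟨hu, hv⟩ | ⟨hu, hv⟩)
    · exact Or.inl ⟨b, a, h.symm, by rwa [Sym2.eq_swap], hv, hu⟩
    · exact Or.inr (Or.inl ⟨b, a, h.symm, by rwa [Sym2.eq_swap], hv, hu⟩)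
    · exact Or.inr (Or.inr (Or.inr ⟨hv, hu⟩))
    · exact Or.inr (Or.inr (Or.inl ⟨hv, hu⟩))⟩
  loopless := ⟨by
    rintro u (⟨a, b, h, hn, hu, hv⟩ | ⟨a, b, h, hn, hu, hv⟩ | ⟨hu, hv⟩ | ⟨hu, hv⟩)
    · exact h.ne (Sum.inl.inj (hu.symm.trans hv))
    · exact h.ne (emb_inj _ _ (hu.symm.trans hv))
    · exact hne (emb_eq_inl x₁ x₂ (hv.symm.trans hu)).1
    · exact hne (emb_eq_inl x₁ x₂ (hu.symm.trans hv)).1⟩

variable {G₁ : SimpleGraph V₁} {G₂ : SimpleGraph V₂} {x₁ y₁ : V₁} {x₂ y₂ : V₂} {hne : y₂ ≠ x₂}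

theorem hajos_inl {a b : V₁} : (hajos G₁ G₂ x₁ y₁ x₂ y₂ hne).Adj (Sum.inl a) (Sum.inl b) ↔
    G₁.Adj a b ∧ s(a, b) ≠ s(x₁, y₁) := by
  constructor
  · rintro (⟨a', b', h, hn, hu, hv⟩ | ⟨a', b', h, hn, hu, hv⟩ | ⟨hu, hv⟩ | ⟨hu, hv⟩)
    · cases hu; cases hv
      exact ⟨h, hn⟩
    · have h1 := (emb_eq_inl x₁ x₂ hu.symm).1
      have h2 := (emb_eq_inl x₁ x₂ hv.symm).1
      exact absurd (h1.trans h2.symm) h.ne
    · exact absurd (emb_eq_inl x₁ x₂ hv.symm).1 hne
    · exact absurd (emb_eq_inl x₁ x₂ hu.symm).1 hne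
  · rintro ⟨h1, h2⟩
    exact Or.inl ⟨a, b, h1, h2, rfl, rfl⟩

theorem hajos_emb (hne₁ : y₁ ≠ x₁) {a b : V₂} :
    (hajos G₁ G₂ x₁ y₁ x₂ y₂ hne).Adj (emb x₁ x₂ a) (emb x₁ x₂ b) ↔
      G₂.Adj a b ∧ s(a, b) ≠ s(x₂, y₂) := by
  constructor
  · rintro (⟨a', b', h, hn, hu, hv⟩ | ⟨a', b', h, hn, hu, hv⟩ | ⟨hu, hv⟩ | ⟨hu, hv⟩)
    · have h1 := (emb_eq_inl x₁ x₂ hu).2
      have h2 := (emb_eq_inl x₁ x₂ hv).2
      exact absurd (h1.trans h2.symm) h.ne
    · rw [emb_inj x₁ x₂ hu, emb_inj x₁ x₂ hv]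
      exact ⟨h, hn⟩
    · exact absurd (emb_eq_inl x₁ x₂ hu).2 hne₁
    · exact absurd (emb_eq_inl x₁ x₂ hv).2 hne₁
  · rintro ⟨h1, h2⟩
    exact Or.inr (Or.inl ⟨a, b, h1, h2, rfl, rfl⟩)

theorem hajos_mixed {a : V₁} {b : V₂} (ha : a ≠ x₁) (hb : b ≠ x₂)
    (h : (hajos G₁ G₂ x₁ y₁ x₂ y₂ hne).Adj (Sum.inl a) (emb x₁ x₂ b)) : a = y₁ ∧ b = y₂ := by
  rcases h with ⟨a', b', h, hn, hu, hv⟩ | ⟨a', b', h, hn, hu, hv⟩ | ⟨hu, hv⟩ | ⟨hu, hv⟩
  · exact absurd (emb_eq_inl x₁ x₂ hv).1 hb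
  · exact absurd (emb_eq_inl x₁ x₂ hu.symm).2 ha
  · exact ⟨Sum.inl.inj hu, emb_inj x₁ x₂ hv⟩
  · exact absurd (emb_eq_inl x₁ x₂ hv).1 hb

/-- Two colourings that agree on the common vertex can be glued. -/
theorem exists_glue {k : ℕ} (c₁ : V₁ → Fin k) (c₂ : V₂ → Fin k) (h : c₁ x₁ = c₂ x₂) :
    ∃ c : V₁ ⊕ {v : V₂ // v ≠ x₂} → Fin k, (∀ a, c (Sum.inl a) = c₁ a) ∧
      ∀ b, c (emb x₁ x₂ b) = c₂ b := by
  refine ⟨Sum.elim c₁ (fun b => c₂ b.1), fun a => rfl, fun b => ?_⟩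
  by_cases hb : b = x₂
  · rw [hb, emb_self]
    exact h
  · rw [emb_ne x₁ x₂ hb]
    rfl

/-- Colours can be permuted so that the two colourings agree on the common vertex. -/
theorem exists_glue' {k : ℕ} (c₁ : V₁ → Fin k) (c₂ : V₂ → Fin k) :
    ∃ (c : V₁ ⊕ {v : V₂ // v ≠ x₂} → Fin k) (σ : Equiv.Perm (Fin k)),
      σ (c₂ x₂) = c₁ x₁ ∧ (∀ a, c (Sum.inl a) = c₁ a) ∧ ∀ b, c (emb x₁ x₂ b) = σ (c₂ b) := by
  let σ : Equiv.Perm (Fin k) := Equiv.swap (c₂ x₂) (c₁ x₁)
  have hσ : σ (c₂ x₂) = c₁ x₁ := Equiv.swap_apply_left _ _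
  obtain ⟨c, hc1, hc2⟩ := exists_glue (x₁ := x₁) (x₂ := x₂) c₁ (fun b => σ (c₂ b)) hσ.symm
  exact ⟨c, σ, hσ, hc1, hc2⟩

theorem hajos_EC {k : ℕ} (h₁ : EC G₁ k) (h₂ : EC G₂ k) (hadj₁ : G₁.Adj x₁ y₁)
    (hadj₂ : G₂.Adj x₂ y₂) : EC (hajos G₁ G₂ x₁ y₁ x₂ y₂ hne) k := by
  have hne₁ : y₁ ≠ x₁ := hadj₁.ne'
  refine ⟨?_, ?_, ?_⟩
  · rintro ⟨c, hc⟩
    have e1 : c (Sum.inl x₁) = c (Sum.inl y₁) := by
      by_contra hcon
      apply h₁.not_col
      refine ⟨fun a => c (Sum.inl a), fun a b hab => ?_⟩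
      by_cases hs : s(a, b) = s(x₁, y₁)
      · rcases Sym2.eq_iff.1 hs with ⟨rfl, rfl⟩ | ⟨rfl, rfl⟩
        · exact hcon
        · exact Ne.symm hcon
      · exact hc _ _ (hajos_inl.2 ⟨hab, hs⟩)
    have e2 : c (emb x₁ x₂ x₂) = c (emb x₁ x₂ y₂) := by
      by_contra hcon
      apply h₂.not_col
      refine ⟨fun a => c (emb x₁ x₂ a), fun a b hab => ?_⟩
      by_cases hs : s(a, b) = s(x₂, y₂)
      · rcases Sym2.eq_iff.1 hs with ⟨rfl, rfl⟩ | ⟨rfl, rfl⟩
        · exact hcon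
        · exact Ne.symm hcon
      · exact hc _ _ ((hajos_emb hne₁).2 ⟨hab, hs⟩)
    rw [emb_self] at e2
    refine hc (Sum.inl y₁) (emb x₁ x₂ y₂) (Or.inr (Or.inr (Or.inl ⟨rfl, rfl⟩))) ?_
    rw [← e1, e2]
  · intro u v huv
    obtain ⟨d₁, hd1, hd1'⟩ := h₁.edge_col x₁ y₁ hadj₁
    obtain ⟨d₂, hd2, hd2'⟩ := h₂.edge_col x₂ y₂ hadj₂
    have key : ∀ (c₁ : V₁ → Fin k) (c₂ : V₂ → Fin k),
        (∀ a b, G₁.Adj a b → s(a, b) ≠ s(x₁, y₁) → s((Sum.inl a : V₁ ⊕ {v : V₂ // v ≠ x₂}),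
          Sum.inl b) ≠ s(u, v) → c₁ a ≠ c₁ b) →
        (∀ a b, G₂.Adj a b → s(a, b) ≠ s(x₂, y₂) → s(emb x₁ x₂ a, emb x₁ x₂ b) ≠ s(u, v) →
          c₂ a ≠ c₂ b) →
        ∀ (c : V₁ ⊕ {v : V₂ // v ≠ x₂} → Fin k) (σ : Equiv.Perm (Fin k)),
          (∀ a, c (Sum.inl a) = c₁ a) → (∀ b, c (emb x₁ x₂ b) = σ (c₂ b)) →
          (s((Sum.inl y₁ : V₁ ⊕ {v : V₂ // v ≠ x₂}), emb x₁ x₂ y₂) ≠ s(u, v) →
            c (Sum.inl y₁) ≠ c (emb x₁ x₂ y₂)) →
          ∀ a b, (hajos G₁ G₂ x₁ y₁ x₂ y₂ hne).Adj a b → s(a, b) ≠ s(u, v) → c a ≠ c b := by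
      intro c₁ c₂ hc₁ hc₂ c σ h1 h2 h3 a b hab hs
      rcases hab with ⟨a', b', h, hn, rfl, rfl⟩ | ⟨a', b', h, hn, rfl, rfl⟩ | ⟨rfl, rfl⟩ | ⟨rfl, rfl⟩
      · rw [h1, h1]
        exact hc₁ a' b' h hn hs
      · rw [h2, h2]
        exact fun heq => hc₂ a' b' h hn hs (σ.injective heq)
      · exact h3 hs
      · rw [Sym2.eq_swap] at hs
        exact (h3 hs).symm
    rcases huv with ⟨a, b, h, hn, rfl, rfl⟩ | ⟨a, b, h, hn, rfl, rfl⟩ | huv
    · obtain ⟨c₁, e1, e1'⟩ := h₁.edge_col a b h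
      obtain ⟨c, σ, hσ, hc1, hc2⟩ := exists_glue' (x₁ := x₁) (x₂ := x₂) c₁ d₂
      refine ⟨c, by rw [hc1, hc1, e1], key c₁ d₂ ?_ ?_ c σ hc1 hc2 ?_⟩
      · intro a' b' hab' _ hs
        refine e1' a' b' hab' (fun hs' => hs ?_)
        rcases Sym2.eq_iff.1 hs' with ⟨rfl, rfl⟩ | ⟨rfl, rfl⟩
        · rfl
        · exact Sym2.eq_swap
      · intro a' b' hab' hs _
        exact hd2' a' b' hab' hs
      · intro _
        rw [hc1, hc2, ← hd2, hσ]
        exact (e1' x₁ y₁ hadj₁ hn.symm).symm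
    · obtain ⟨c₂, e2, e2'⟩ := h₂.edge_col a b h
      obtain ⟨c, σ, hσ, hc1, hc2⟩ := exists_glue' (x₁ := x₁) (x₂ := x₂) d₁ c₂
      refine ⟨c, by rw [hc2, hc2, e2], key d₁ c₂ ?_ ?_ c σ hc1 hc2 ?_⟩
      · intro a' b' hab' hs _
        exact hd1' a' b' hab' hs
      · intro a' b' hab' _ hs
        refine e2' a' b' hab' (fun hs' => hs ?_)
        rcases Sym2.eq_iff.1 hs' with ⟨rfl, rfl⟩ | ⟨rfl, rfl⟩
        · rfl
        · exact Sym2.eq_swap
      · intro _
        rw [hc1, hc2, ← hd1, ← hσ]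
        exact fun heq => e2' x₂ y₂ hadj₂ hn.symm (σ.injective heq)
    · obtain ⟨c, σ, hσ, hc1, hc2⟩ := exists_glue' (x₁ := x₁) (x₂ := x₂) d₁ d₂
      have huv' : s((Sum.inl y₁ : V₁ ⊕ {v : V₂ // v ≠ x₂}), emb x₁ x₂ y₂) = s(u, v) := by
        rcases huv with ⟨rfl, rfl⟩ | ⟨rfl, rfl⟩
        · rfl
        · exact Sym2.eq_swap
      have hcc : c (Sum.inl y₁) = c (emb x₁ x₂ y₂) := by
        rw [hc1, hc2, ← hd1, ← hd2, hσ]
      refine ⟨c, ?_, key d₁ d₂ ?_ ?_ c σ hc1 hc2 ?_⟩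
      · rcases huv with ⟨rfl, rfl⟩ | ⟨rfl, rfl⟩
        · exact hcc
        · exact hcc.symm
      · intro a' b' hab' hs _
        exact hd1' a' b' hab' hs
      · intro a' b' hab' hs _
        exact hd2' a' b' hab' hs
      · intro hs
        exact absurd huv' hs
  · have hpick : ∀ (v w p q : V₁ ⊕ {v : V₂ // v ≠ x₂}), p ≠ q →
        (hajos G₁ G₂ x₁ y₁ x₂ y₂ hne).Adj v p → (hajos G₁ G₂ x₁ y₁ x₂ y₂ hne).Adj v q →
        ∃ x, x ≠ w ∧ (hajos G₁ G₂ x₁ y₁ x₂ y₂ hne).Adj v x := by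
      intro v w p q hpq hp hq
      by_cases h : p = w
      · exact ⟨q, fun h' => hpq (h.trans h'.symm), hq⟩
      · exact ⟨p, h, hp⟩
    intro v w
    rcases v with a | ⟨b, hb⟩
    · by_cases ha : a = x₁
      · subst ha
        obtain ⟨p, hp, hp'⟩ := h₁.two_nbrs a y₁
        obtain ⟨q, hq, hq'⟩ := h₂.two_nbrs x₂ y₂
        refine hpick _ w (Sum.inl p) (emb a x₂ q) ?_ (hajos_inl.2 ⟨hp', ?_⟩) ?_
        · intro h
          exact hq'.ne (emb_eq_inl _ _ h.symm).1.symm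
        · rw [Ne, Sym2.eq_iff]
          rintro (h | h)
          · exact hp h.2
          · exact hp'.ne h.2.symm
        · have h1 : (hajos G₁ G₂ a y₁ x₂ y₂ hne).Adj (emb a x₂ x₂) (emb a x₂ q) := by
            rw [hajos_emb hne₁]
            refine ⟨hq', ?_⟩
            rw [Ne, Sym2.eq_iff]
            rintro (h | h)
            · exact hq h.2
            · exact hq'.ne h.2.symm
          rwa [emb_self] at h1
      by_cases ha' : a = y₁
      · subst ha'
        obtain ⟨p, hp, hp'⟩ := h₁.two_nbrs a x₁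
        refine hpick _ w (Sum.inl p) (emb x₁ x₂ y₂) ?_ (hajos_inl.2 ⟨hp', ?_⟩)
          (Or.inr (Or.inr (Or.inl ⟨rfl, rfl⟩)))
        · intro h
          exact hne (emb_eq_inl _ _ h.symm).1
        · rw [Ne, Sym2.eq_iff]
          rintro (h | h)
          · exact ha h.1
          · exact hp h.2
      · have hex : ∃ w' : V₁, ∀ x, x ≠ w' → (Sum.inl x : V₁ ⊕ {v : V₂ // v ≠ x₂}) ≠ w := by
          rcases w with w' | w'
          · exact ⟨w', fun x hx h => hx (Sum.inl.inj h)⟩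
          · exact ⟨a, fun x hx h => by cases h⟩
        obtain ⟨w', hw'⟩ := hex
        obtain ⟨p, hp, hp'⟩ := h₁.two_nbrs a w'
        refine ⟨Sum.inl p, hw' p hp, hajos_inl.2 ⟨hp', ?_⟩⟩
        rw [Ne, Sym2.eq_iff]
        rintro (h | h)
        · exact ha h.1
        · exact ha' h.1
    · have hbe : (Sum.inr ⟨b, hb⟩ : V₁ ⊕ {v : V₂ // v ≠ x₂}) = emb x₁ x₂ b := (emb_ne _ _ hb).symm
      rw [hbe]
      by_cases hb' : b = y₂
      · subst hb'
        obtain ⟨q, hq, hq'⟩ := h₂.two_nbrs b x₂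
        refine hpick _ w (Sum.inl y₁) (emb x₁ x₂ q) ?_ (Or.inr (Or.inr (Or.inr ⟨rfl, rfl⟩)))
          ((hajos_emb hne₁).2 ⟨hq', ?_⟩)
        · intro h
          exact hq (emb_eq_inl _ _ h.symm).1
        · rw [Ne, Sym2.eq_iff]
          rintro (h | h)
          · exact hb h.1
          · exact hq h.2
      · have hex : ∃ w' : V₂, ∀ x, x ≠ w' → emb x₁ x₂ x ≠ w := by
          by_cases h : ∃ w', emb x₁ x₂ w' = w
          · obtain ⟨w', rfl⟩ := h
            exact ⟨w', fun x hx h => hx (emb_inj _ _ h)⟩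
          · push Not at h
            exact ⟨b, fun x _ => h x⟩
        obtain ⟨w', hw'⟩ := hex
        obtain ⟨p, hp, hp'⟩ := h₂.two_nbrs b w'
        refine ⟨emb x₁ x₂ p, hw' p hp, (hajos_emb hne₁).2 ⟨hp', ?_⟩⟩
        rw [Ne, Sym2.eq_iff]
        rintro (h | h)
        · exact hb h.1
        · exact hb' h.1

/-- `T` is a clique of `G` that does not use the edge `e`. -/
def CliqueAvoiding {V : Type} (G : SimpleGraph V) (e : Sym2 V) (T : Finset V) : Prop :=
  ∀ a ∈ T, ∀ b ∈ T, a ≠ b → G.Adj a b ∧ s(a, b) ≠ e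

omit [DecidableEq V₂] in
/-- Cliques with at least three vertices of a Hajós join live on one side. -/
theorem hajos_clique [DecidableEq V₂] (hne₁ : y₁ ≠ x₁) {T : Finset (V₁ ⊕ {v : V₂ // v ≠ x₂})}
    (hT : 3 ≤ T.card) (hcl : ∀ a ∈ T, ∀ b ∈ T, a ≠ b → (hajos G₁ G₂ x₁ y₁ x₂ y₂ hne).Adj a b) :
    (∀ a ∈ T, ∃ a', a = Sum.inl a') ∨ (∀ a ∈ T, ∃ a', a = emb x₁ x₂ a') := by
  classical
  by_contra hcon
  push Not at hcon
  obtain ⟨⟨u, hu, hu'⟩, ⟨v, hv, hv'⟩⟩ := hcon
  obtain ⟨b, hb, rfl⟩ : ∃ b, b ≠ x₂ ∧ u = emb x₁ x₂ b := by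
    rcases u with a | ⟨b, hb⟩
    · exact absurd rfl (hu' a)
    · exact ⟨b, hb, (emb_ne _ _ hb).symm⟩
  obtain ⟨a, ha, rfl⟩ : ∃ a, a ≠ x₁ ∧ v = Sum.inl a := by
    rcases v with a | ⟨b', hb'⟩
    · refine ⟨a, ?_, rfl⟩
      rintro rfl
      exact hv' x₂ (emb_self _ _).symm
    · exact absurd (emb_ne x₁ x₂ hb').symm (hv' b')
  have huv : emb x₁ x₂ b ≠ Sum.inl a := fun h => hb (emb_eq_inl _ _ h).1
  obtain ⟨rfl, rfl⟩ := hajos_mixed ha hb (hcl _ hv _ hu huv.symm)
  obtain ⟨w, hw, hwn⟩ : ∃ w ∈ T, w ∉ ({emb x₁ x₂ b, Sum.inl a} : Finset _) := by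
    apply Finset.exists_mem_notMem_of_card_lt_card
    exact lt_of_le_of_lt Finset.card_le_two (by omega)
  rw [Finset.mem_insert, Finset.mem_singleton, not_or] at hwn
  have h1 := hcl w hw _ hu hwn.1
  have h2 := hcl w hw _ hv hwn.2
  have hx : w = Sum.inl x₁ := by
    rcases w with w | ⟨w, hw'⟩
    · by_contra hwx
      have hwx' : w ≠ x₁ := fun h => hwx (by rw [h])
      obtain ⟨h, -⟩ := hajos_mixed hwx' hb h1
      exact hwn.2 (by rw [h])
    · exfalso
      have hwe : (Sum.inr ⟨w, hw'⟩ : V₁ ⊕ {v : V₂ // v ≠ x₂}) = emb x₁ x₂ w := (emb_ne _ _ hw').symm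
      rw [hwe] at h2 hwn
      obtain ⟨-, h⟩ := hajos_mixed ha hw' h2.symm
      exact hwn.1 (by rw [h])
  rw [hx, ← emb_self x₁ x₂, hajos_emb hne₁] at h1
  exact h1.2 rfl

theorem hajos_cliqueAvoiding (hne₁ : y₁ ≠ x₁) {c d : V₂} {n : ℕ} (hn : 3 ≤ n)
    (h₁ : ∀ T : Finset V₁, T.card = n → ¬ CliqueAvoiding G₁ s(x₁, y₁) T)
    (h₂ : ∀ T : Finset V₂, T.card = n → ¬ ∀ a ∈ T, ∀ b ∈ T, a ≠ b →
      G₂.Adj a b ∧ s(a, b) ≠ s(x₂, y₂) ∧ s(a, b) ≠ s(c, d)) :
    ∀ T : Finset (V₁ ⊕ {v : V₂ // v ≠ x₂}), T.card = n →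
      ¬ CliqueAvoiding (hajos G₁ G₂ x₁ y₁ x₂ y₂ hne) s(emb x₁ x₂ c, emb x₁ x₂ d) T := by
  classical
  intro T hT hcl
  rcases hajos_clique hne₁ (by omega) (fun a ha b hb hab => (hcl a ha b hb hab).1) with h | h
  · obtain ⟨T', rfl⟩ : ∃ T' : Finset V₁, T = T'.map ⟨Sum.inl, Sum.inl_injective⟩ := by
      refine ⟨T.preimage Sum.inl (Sum.inl_injective.injOn), ?_⟩
      ext a
      rw [Finset.mem_map]
      constructor
      · intro ha
        obtain ⟨a', rfl⟩ := h a ha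
        exact ⟨a', Finset.mem_preimage.2 ha, rfl⟩
      · rintro ⟨a', ha', rfl⟩
        exact Finset.mem_preimage.1 ha'
    rw [Finset.card_map] at hT
    apply h₁ T' hT
    intro a ha b hb hab
    have := (hcl (Sum.inl a) (Finset.mem_map_of_mem _ ha) (Sum.inl b) (Finset.mem_map_of_mem _ hb)
      (fun h => hab (Sum.inl.inj h))).1
    exact hajos_inl.1 this
  · obtain ⟨T', rfl⟩ : ∃ T' : Finset V₂, T = T'.map ⟨emb x₁ x₂, emb_inj x₁ x₂⟩ := by
      refine ⟨T.preimage (emb x₁ x₂) ((emb_inj x₁ x₂).injOn), ?_⟩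
      ext a
      rw [Finset.mem_map]
      constructor
      · intro ha
        obtain ⟨a', rfl⟩ := h a ha
        exact ⟨a', Finset.mem_preimage.2 ha, rfl⟩
      · rintro ⟨a', ha', rfl⟩
        exact Finset.mem_preimage.1 ha'
    rw [Finset.card_map] at hT
    apply h₂ T' hT
    intro a ha b hb hab
    have := hcl (emb x₁ x₂ a) (Finset.mem_map_of_mem _ ha) (emb x₁ x₂ b)
      (Finset.mem_map_of_mem _ hb) (fun h => hab (emb_inj _ _ h))
    obtain ⟨h3, h4⟩ := (hajos_emb hne₁).1 this.1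
    refine ⟨h3, h4, fun h5 => this.2 ?_⟩
    rcases Sym2.eq_iff.1 h5 with ⟨rfl, rfl⟩ | ⟨rfl, rfl⟩
    · rfl
    · exact Sym2.eq_swap

theorem hajos_card [Fintype V₁] [Fintype V₂] :
    Fintype.card (V₁ ⊕ {v : V₂ // v ≠ x₂}) + 1 = Fintype.card V₁ + Fintype.card V₂ := by
  have h : Fintype.card {v : V₂ // v ≠ x₂} + 1 = Fintype.card V₂ := by
    rw [Fintype.card_subtype_compl]
    have : 0 < Fintype.card V₂ := Fintype.card_pos_iff.2 ⟨x₂⟩
    simp
    omega
  rw [Fintype.card_sum]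
  omega

theorem hajos_edges [Fintype V₁] [Fintype V₂] (hadj₁ : G₁.Adj x₁ y₁) (hadj₂ : G₂.Adj x₂ y₂) :
    (hajos G₁ G₂ x₁ y₁ x₂ y₂ hne).edgeSet.ncard + 1 ≤
      G₁.edgeSet.ncard + G₂.edgeSet.ncard := by
  classical
  have hsub : (hajos G₁ G₂ x₁ y₁ x₂ y₂ hne).edgeSet ⊆
      (Sym2.map Sum.inl '' (G₁.edgeSet \ {s(x₁, y₁)}) ∪
        Sym2.map (emb x₁ x₂) '' (G₂.edgeSet \ {s(x₂, y₂)})) ∪ {s(Sum.inl y₁, emb x₁ x₂ y₂)} := by
    intro e he
    induction e using Sym2.ind with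
    | _ u v =>
      rw [SimpleGraph.mem_edgeSet] at he
      rcases he with ⟨a', b', h, hn, rfl, rfl⟩ | ⟨a', b', h, hn, rfl, rfl⟩ | ⟨rfl, rfl⟩ | ⟨rfl, rfl⟩
      · exact Or.inl (Or.inl ⟨s(a', b'), ⟨h, hn⟩, rfl⟩)
      · exact Or.inl (Or.inr ⟨s(a', b'), ⟨h, hn⟩, rfl⟩)
      · exact Or.inr rfl
      · exact Or.inr Sym2.eq_swap
  have h1 := Set.ncard_le_ncard hsub (Set.toFinite _)
  have h2 := Set.ncard_union_le (Sym2.map Sum.inl '' (G₁.edgeSet \ {s(x₁, y₁)}) ∪
        Sym2.map (emb x₁ x₂) '' (G₂.edgeSet \ {s(x₂, y₂)})) {s(Sum.inl y₁, emb x₁ x₂ y₂)}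
  have h3 := Set.ncard_union_le (Sym2.map (Sum.inl : V₁ → V₁ ⊕ {v : V₂ // v ≠ x₂}) ''
    (G₁.edgeSet \ {s(x₁, y₁)})) (Sym2.map (emb x₁ x₂) '' (G₂.edgeSet \ {s(x₂, y₂)}))
  have h4 := Set.ncard_image_le (f := Sym2.map (Sum.inl : V₁ → V₁ ⊕ {v : V₂ // v ≠ x₂}))
    (s := G₁.edgeSet \ {s(x₁, y₁)}) (Set.toFinite _)
  have h5 := Set.ncard_image_le (f := Sym2.map (emb x₁ x₂))
    (s := G₂.edgeSet \ {s(x₂, y₂)}) (Set.toFinite _)
  have h6 : (G₁.edgeSet \ {s(x₁, y₁)}).ncard + 1 = G₁.edgeSet.ncard :=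
    Set.ncard_sdiff_singleton_add_one hadj₁ (Set.toFinite _)
  have h7 : (G₂.edgeSet \ {s(x₂, y₂)}).ncard + 1 = G₂.edgeSet.ncard :=
    Set.ncard_sdiff_singleton_add_one hadj₂ (Set.toFinite _)
  rw [Set.ncard_singleton] at h2
  omega

end Hajos

section Complete

theorem EC_top : EC (⊤ : SimpleGraph (Fin 10)) 9 := by
  refine ⟨?_, ?_, ?_⟩
  · rintro ⟨c, hc⟩
    have hinj : Function.Injective c := by
      intro a b hab
      by_contra hne
      exact hc a b hne hab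
    have := Fintype.card_le_of_injective c hinj
    simp at this
  · intro u v huv
    have huv' : u ≠ v := huv
    obtain ⟨σ, hσ⟩ : ∃ σ : {w : Fin 10 // w ≠ v} ≃ Fin 9, True :=
      ⟨Fintype.equivFinOfCardEq (by
        rw [Fintype.card_subtype_compl]
        simp), trivial⟩
    refine ⟨fun w => if h : w = v then σ ⟨u, huv'⟩ else σ ⟨w, h⟩, ?_, ?_⟩
    · simp only [dif_neg huv', dif_pos]
    · intro a b hab hs
      have hab' : a ≠ b := hab
      rw [Ne, Sym2.eq_iff, not_or] at hs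
      by_cases ha : a = v
      · have hb : b ≠ v := fun h => hab' (ha.trans h.symm)
        simp only [dif_pos ha, dif_neg hb]
        intro heq
        have := congrArg Subtype.val (σ.injective heq)
        exact hs.2 ⟨ha, this.symm⟩
      · by_cases hb : b = v
        · simp only [dif_neg ha, dif_pos hb]
          intro heq
          have := congrArg Subtype.val (σ.injective heq)
          exact hs.1 ⟨this, hb⟩
        · simp only [dif_neg ha, dif_neg hb]
          intro heq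
          exact hab' (congrArg Subtype.val (σ.injective heq))
  · intro v w
    have : ∀ v w : Fin 10, ∃ x, x ≠ w ∧ v ≠ x := by decide
    exact this v w

theorem edges_top : (⊤ : SimpleGraph (Fin 10)).edgeSet.ncard ≤ 45 := by
  classical
  have h : (⊤ : SimpleGraph (Fin 10)).edgeSet ⊆
      (((Finset.univ : Finset (Fin 10 × Fin 10)).filter (fun p => p.1 < p.2)).image
        (fun p => s(p.1, p.2)) : Finset (Sym2 (Fin 10))) := by
    intro e he
    induction e using Sym2.ind with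
    | _ u v =>
      have huv : u ≠ v := he
      rw [Finset.coe_image]
      rcases lt_or_gt_of_ne huv with h | h
      · exact ⟨(u, v), by simpa using h, rfl⟩
      · exact ⟨(v, u), by simpa using h, Sym2.eq_swap⟩
  refine (Set.ncard_le_ncard h (Finset.finite_toSet _)).trans ?_
  rw [Set.ncard_coe_finset]
  refine Finset.card_image_le.trans ?_
  decide

theorem clique_top (T : Finset (Fin 10)) (hT : T.card = 9) :
    ¬ ∀ a ∈ T, ∀ b ∈ T, a ≠ b → (⊤ : SimpleGraph (Fin 10)).Adj a b ∧ s(a, b) ≠ s(0, 1) ∧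
      s(a, b) ≠ s(2, 3) := by
  intro hcl
  obtain ⟨i, hi, hi'⟩ : ∃ i : Fin 10, (i = 0 ∨ i = 1) ∧ i ∉ T := by
    by_contra hcon
    push Not at hcon
    exact (hcl 0 (hcon 0 (Or.inl rfl)) 1 (hcon 1 (Or.inr rfl)) (by decide)).2.1 rfl
  obtain ⟨j, hj, hj'⟩ : ∃ i : Fin 10, (i = 2 ∨ i = 3) ∧ i ∉ T := by
    by_contra hcon
    push Not at hcon
    exact (hcl 2 (hcon 2 (Or.inl rfl)) 3 (hcon 3 (Or.inr rfl)) (by decide)).2.2 rfl
  have hij : i ≠ j := by
    rcases hi with rfl | rfl <;> rcases hj with rfl | rfl <;> decide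
  have hsub : T ⊆ (Finset.univ.erase i).erase j := by
    intro x hx
    rw [Finset.mem_erase, Finset.mem_erase]
    exact ⟨fun h => hj' (h ▸ hx), fun h => hi' (h ▸ hx), Finset.mem_univ _⟩
  have := Finset.card_le_card hsub
  rw [Finset.card_erase_of_mem (by rw [Finset.mem_erase]; exact ⟨hij.symm, Finset.mem_univ _⟩),
    Finset.card_erase_of_mem (Finset.mem_univ _), Finset.card_univ, Fintype.card_fin] at this
  omega

end Complete

section Base

/-- The block of a vertex: the complete graph, the first or the second five-cycle. -/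
def blk (x : ℕ) : ℕ := if x < 4 then 0 else if x < 9 then 1 else 2

/-- Adjacency in the join of `K_4`, `C_5` and `C_5`. -/
def bAdj (u v : Fin 14) : Bool :=
  if u = v then false
  else if blk u = blk v ∧ blk u ≠ 0 then
    decide ((u : ℕ) + 1 = v ∨ (v : ℕ) + 1 = u ∨ (u : ℕ) + 4 = v ∨ (v : ℕ) + 4 = u)
  else true

theorem bAdj_symm : ∀ u v, bAdj u v = true → bAdj v u = true := by decide +kernel

theorem bAdj_irrefl : ∀ u, bAdj u u = false := by decide +kernel

/-- The join of `K_4`, `C_5` and `C_5`. -/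
def B : SimpleGraph (Fin 14) where
  Adj u v := bAdj u v = true
  symm := ⟨bAdj_symm⟩
  loopless := ⟨by
    intro u h
    rw [bAdj_irrefl] at h
    cases h⟩

/-- Colourings of the graph minus an edge, coded in base sixteen. -/
def colTable : List (List ℕ) := [
   [0, 33344357435515136, 33344357435514896, 33344357435507216, 28540522414481672,
    28540518376153352, 28540522482311432, 28540519461429512, 28540539846729992, 33344357435515144,
    29106770902589704, 33362911694233864, 29403639042089224, 38112801926226184],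
   [33344357435515136, 0, 33344357435515152, 33344357435511312, 28540522414481792,
    28540518376153472, 28540522482311552, 28540519461429632, 28540539846730112, 33344357435515264,
    29106770902589824, 33362911694233984, 29403639042089344, 38112801926226304],
   [33344357435515137, 33344357435515152, 0, 33344357435515408, 28540522414483472,
    28540518376155152, 28540522482313232, 28540519461431312, 28540539846731792, 33344357435516944,
    29106770902591504, 33362911694235664, 29403639042091024, 38112801926227984],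
   [33344357435515138, 33344357435515168, 33344357435515408, 0, 28540522414506512,
    28540518376178192, 28540522482336272, 28540519461454352, 28540539846754832, 33344357435539984,
    29106770902614544, 33362911694258704, 29403639042114064, 38112801926251024],
   [28540522414481672, 28540522414481792, 28540522414483472, 28540522414506512, 0,
    33344362016682512, 0, 0, 33344357974422032, 33344362016944656,
    29106775484019216, 33362916275663376, 29403643623518736, 38112806507655696],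
   [28540518376153352, 28540518376153472, 28540518376155152, 28540518376178192, 33344362016682512,
    0, 33344357973438992, 0, 0, 33344357977633296,
    29106771444707856, 33362912236352016, 29403639584207376, 38112802468344336],
   [28540522482311432, 28540522482311552, 28540522482313232, 28540522482336272, 0,
    33344357973438992, 0, 33344362000953872, 0, 33344362068062736,
    29106775535137296, 33362916326781456, 29403643674636816, 38112806558773776],
   [28540519461429512, 28540519461429632, 28540519461431312, 28540519461454352, 0,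
    0, 33344362000953872, 0, 33344357721780752, 33344358795522576,
    29106772262597136, 33362913054241296, 29403640402096656, 38112803286233616],
   [28540539846729992, 28540539846730112, 28540539846731792, 28540539846754832, 33344357974422032,
    0, 0, 33344357721780752, 0, 33344375154291216,
    29106788621365776, 33362929413009936, 29403656760865296, 38112819645002256],
   [33344357435515144, 33344357435515264, 33344357435516944, 33344357435539984, 33344362016944656,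
    33344357977633296, 33344362068062736, 33344358795522576, 33344375154291216, 0,
    38148059599090192, 0, 0, 33909442274013712],
   [29106770902589704, 29106770902589824, 29106770902591504, 29106770902614544, 29106775484019216,
    29106771444707856, 29106775535137296, 29106772262597136, 29106788621365776, 38148059599090192,
    0, 33908411481862672, 0, 0],
   [33362911694233864, 33362911694233984, 33362911694235664, 33362911694258704, 33362916275663376,
    33362912236352016, 33362916326781456, 33362913054241296, 33362929413009936, 0,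
    33908411481862672, 0, 38131566924673552, 0],
   [29403639042089224, 29403639042089344, 29403639042091024, 29403639042114064, 29403643623518736,
    29403639584207376, 29403643674636816, 29403640402096656, 29403656760865296, 0,
    0, 38131566924673552, 0, 33644528691196432],
   [38112801926226184, 38112801926226304, 38112801926227984, 38112801926251024, 38112806507655696,
    38112802468344336, 38112806558773776, 38112803286233616, 38112819645002256, 33909442274013712,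
    0, 0, 33644528691196432, 0]]

/-- The colouring attached to the edge `uv`. -/
def bcol (u v w : Fin 14) : Fin 9 :=
  ⟨(((colTable.getD u []).getD v 0) / 16 ^ (w : ℕ)) % 16 % 9, Nat.mod_lt _ (by norm_num)⟩

theorem bcol_spec : ∀ u v, bAdj u v = true → bcol u v u = bcol u v v ∧
    ∀ a b, bAdj a b = true → ¬ ((a = u ∧ b = v) ∨ (a = v ∧ b = u)) → bcol u v a ≠ bcol u v b := by
  decide +kernel

theorem b_nbrs : ∀ v w, ∃ x, x ≠ w ∧ bAdj v x = true := by decide +kernel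

theorem b_not_col : ¬ ∃ c : Fin 14 → Fin 9, ∀ a b, B.Adj a b → c a ≠ c b := by
  rintro ⟨c, hc⟩
  have hc' : ∀ a b, bAdj a b = true → c a ≠ c b := hc
  have main : ∀ S : Finset (Fin 14), S.card = 10 →
      (∀ a ∈ S, ∀ b ∈ S, a ≠ b → c a ≠ c b) → False := by
    intro S hS h
    have h1 : S.card ≤ (Finset.univ : Finset (Fin 9)).card :=
      Finset.card_le_card_of_injOn c (fun _ _ => Finset.mem_univ _) (by
        intro a ha b hb hab
        by_contra hne
        exact h a ha b hb hne hab)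
    rw [hS] at h1
    simp at h1
  by_cases h1 : c 4 = c 6
  · have h13 : c 4 ≠ c 7 := by rw [h1]; exact hc' 6 7 (by decide)
    by_cases h2 : c 9 = c 11
    · have h23 : c 9 ≠ c 12 := by rw [h2]; exact hc' 11 12 (by decide)
      refine main {0, 1, 2, 3, 4, 7, 8, 9, 12, 13} (by decide) (fun a ha b hb hab => ?_)
      have key : ∀ a ∈ ({0, 1, 2, 3, 4, 7, 8, 9, 12, 13} : Finset (Fin 14)),
          ∀ b ∈ ({0, 1, 2, 3, 4, 7, 8, 9, 12, 13} : Finset (Fin 14)), a ≠ b →
          bAdj a b = true ∨ (a = 4 ∧ b = 7) ∨ (a = 7 ∧ b = 4) ∨ (a = 9 ∧ b = 12) ∨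
            (a = 12 ∧ b = 9) := by decide +kernel
      rcases key a ha b hb hab with h | ⟨rfl, rfl⟩ | ⟨rfl, rfl⟩ | ⟨rfl, rfl⟩ | ⟨rfl, rfl⟩
      · exact hc' a b h
      · exact h13
      · exact h13.symm
      · exact h23
      · exact h23.symm
    · refine main {0, 1, 2, 3, 4, 7, 8, 9, 10, 11} (by decide) (fun a ha b hb hab => ?_)
      have key : ∀ a ∈ ({0, 1, 2, 3, 4, 7, 8, 9, 10, 11} : Finset (Fin 14)),
          ∀ b ∈ ({0, 1, 2, 3, 4, 7, 8, 9, 10, 11} : Finset (Fin 14)), a ≠ b →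
          bAdj a b = true ∨ (a = 4 ∧ b = 7) ∨ (a = 7 ∧ b = 4) ∨ (a = 9 ∧ b = 11) ∨
            (a = 11 ∧ b = 9) := by decide +kernel
      rcases key a ha b hb hab with h | ⟨rfl, rfl⟩ | ⟨rfl, rfl⟩ | ⟨rfl, rfl⟩ | ⟨rfl, rfl⟩
      · exact hc' a b h
      · exact h13
      · exact h13.symm
      · exact h2
      · exact Ne.symm h2
  · by_cases h2 : c 9 = c 11
    · have h23 : c 9 ≠ c 12 := by rw [h2]; exact hc' 11 12 (by decide)
      refine main {0, 1, 2, 3, 4, 5, 6, 9, 12, 13} (by decide) (fun a ha b hb hab => ?_)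
      have key : ∀ a ∈ ({0, 1, 2, 3, 4, 5, 6, 9, 12, 13} : Finset (Fin 14)),
          ∀ b ∈ ({0, 1, 2, 3, 4, 5, 6, 9, 12, 13} : Finset (Fin 14)), a ≠ b →
          bAdj a b = true ∨ (a = 4 ∧ b = 6) ∨ (a = 6 ∧ b = 4) ∨ (a = 9 ∧ b = 12) ∨
            (a = 12 ∧ b = 9) := by decide +kernel
      rcases key a ha b hb hab with h | ⟨rfl, rfl⟩ | ⟨rfl, rfl⟩ | ⟨rfl, rfl⟩ | ⟨rfl, rfl⟩
      · exact hc' a b h
      · exact h1
      · exact Ne.symm h1
      · exact h23
      · exact h23.symm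
    · refine main {0, 1, 2, 3, 4, 5, 6, 9, 10, 11} (by decide) (fun a ha b hb hab => ?_)
      have key : ∀ a ∈ ({0, 1, 2, 3, 4, 5, 6, 9, 10, 11} : Finset (Fin 14)),
          ∀ b ∈ ({0, 1, 2, 3, 4, 5, 6, 9, 10, 11} : Finset (Fin 14)), a ≠ b →
          bAdj a b = true ∨ (a = 4 ∧ b = 6) ∨ (a = 6 ∧ b = 4) ∨ (a = 9 ∧ b = 11) ∨
            (a = 11 ∧ b = 9) := by decide +kernel
      rcases key a ha b hb hab with h | ⟨rfl, rfl⟩ | ⟨rfl, rfl⟩ | ⟨rfl, rfl⟩ | ⟨rfl, rfl⟩
      · exact hc' a b h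
      · exact h1
      · exact Ne.symm h1
      · exact h2
      · exact Ne.symm h2

theorem EC_B : EC B 9 := by
  refine ⟨b_not_col, ?_, b_nbrs⟩
  intro u v huv
  obtain ⟨h1, h2⟩ := bcol_spec u v huv
  refine ⟨bcol u v, h1, fun a b hab hs => h2 a b hab (fun h => hs ?_)⟩
  rw [Sym2.eq_iff]
  exact h

theorem edges_B : B.edgeSet.ncard ≤ 81 := by
  classical
  have h : B.edgeSet ⊆
      (((Finset.univ : Finset (Fin 14 × Fin 14)).filter (fun p => p.1 < p.2 ∧
        bAdj p.1 p.2 = true)).image (fun p => s(p.1, p.2)) : Finset (Sym2 (Fin 14))) := by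
    intro e he
    induction e using Sym2.ind with
    | _ u v =>
      have huv : bAdj u v = true := he
      have hne : u ≠ v := B.ne_of_adj he
      rw [Finset.coe_image]
      rcases lt_or_gt_of_ne hne with h | h
      · exact ⟨(u, v), by simpa using ⟨h, huv⟩, rfl⟩
      · exact ⟨(v, u), by simpa using ⟨h, bAdj_symm _ _ huv⟩, Sym2.eq_swap⟩
  refine (Set.ncard_le_ncard h (Finset.finite_toSet _)).trans ?_
  rw [Set.ncard_coe_finset]
  refine Finset.card_image_le.trans ?_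
  decide +kernel

theorem b_triangle : ∀ i ∈ ({1, 2} : Finset ℕ), ∀ a b c : Fin 14, blk a = i → blk b = i →
    blk c = i → bAdj a b = true → bAdj a c = true → bAdj b c = true → False := by
  decide +kernel

theorem clique_B (T : Finset (Fin 14)) (hT : T.card = 9) :
    ¬ ∀ a ∈ T, ∀ b ∈ T, a ≠ b → B.Adj a b := by
  intro hcl
  have hblk : ∀ i ∈ ({1, 2} : Finset ℕ), (T.filter (fun x : Fin 14 => blk x = i)).card ≤ 2 := by
    intro i hi
    by_contra hcon
    push Not at hcon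
    obtain ⟨a, b, c, ha, hb, hc, hab, hac, hbc⟩ := Finset.two_lt_card_iff.1 hcon
    rw [Finset.mem_filter] at ha hb hc
    exact b_triangle i hi a b c ha.2 hb.2 hc.2 (hcl a ha.1 b hb.1 hab) (hcl a ha.1 c hc.1 hac)
      (hcl b hb.1 c hc.1 hbc)
  have h0 : (T.filter (fun x : Fin 14 => blk x = 0)).card ≤ 4 := by
    refine (Finset.card_le_card (Finset.filter_subset_filter _ (Finset.subset_univ T))).trans ?_
    decide +kernel
  have hsub : T ⊆ (T.filter (fun x : Fin 14 => blk x = 0)) ∪ ((T.filter (fun x : Fin 14 => blk x = 1)) ∪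
      (T.filter (fun x : Fin 14 => blk x = 2))) := by
    intro x hx
    have hx' : ∀ x : Fin 14, blk x = 0 ∨ blk x = 1 ∨ blk x = 2 := by decide +kernel
    rw [Finset.mem_union, Finset.mem_union, Finset.mem_filter, Finset.mem_filter,
      Finset.mem_filter]
    rcases hx' x with h | h | h
    · exact Or.inl ⟨hx, h⟩
    · exact Or.inr (Or.inl ⟨hx, h⟩)
    · exact Or.inr (Or.inr ⟨hx, h⟩)
  have h1 := hblk 1 (by decide)
  have h2 := hblk 2 (by decide)
  have h3 := Finset.card_le_card hsub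
  have h4 := Finset.card_union_le (T.filter (fun x : Fin 14 => blk x = 0))
    ((T.filter (fun x : Fin 14 => blk x = 1)) ∪ (T.filter (fun x : Fin 14 => blk x = 2)))
  have h5 := Finset.card_union_le (T.filter (fun x : Fin 14 => blk x = 1)) (T.filter (fun x : Fin 14 => blk x = 2))
  omega

end Base

theorem chain (m : ℕ) : ∃ (V : Type) (_ : Fintype V) (G : SimpleGraph V) (u v : V),
    G.Adj u v ∧ EC G 9 ∧ Fintype.card V = 14 + 9 * m ∧ G.edgeSet.ncard ≤ 81 + 44 * m ∧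
      ∀ T : Finset V, T.card = 9 → ¬ CliqueAvoiding G s(u, v) T := by
  induction m with
  | zero =>
    refine ⟨Fin 14, inferInstance, B, 0, 1, ?_, EC_B, by simp, by simpa using edges_B, ?_⟩
    · show bAdj 0 1 = true
      decide
    · intro T hT h
      exact clique_B T hT (fun a ha b hb hab => (h a ha b hb hab).1)
  | succ m ih =>
    obtain ⟨V, _, G, u, v, huv, hEC, hcard, hedge, hcl⟩ := ih
    have hne : (1 : Fin 10) ≠ 0 := by decide
    have h01 : (⊤ : SimpleGraph (Fin 10)).Adj 0 1 := by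
      show (0 : Fin 10) ≠ 1
      decide
    have hc := hajos_card (V₁ := V) (V₂ := Fin 10) (x₂ := 0)
    have he := hajos_edges (G₁ := G) (G₂ := (⊤ : SimpleGraph (Fin 10))) (hne := hne) huv h01
    have he2 := edges_top
    refine ⟨V ⊕ {v : Fin 10 // v ≠ 0}, inferInstance, hajos G ⊤ u v 0 1 hne,
      emb u 0 2, emb u 0 3, ?_, hajos_EC hEC EC_top huv h01, ?_, ?_, ?_⟩
    · rw [hajos_emb huv.ne']
      refine ⟨?_, ?_⟩
      · show (2 : Fin 10) ≠ 3
        decide
      · decide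
    · rw [Fintype.card_fin] at hc
      omega
    · omega
    · exact hajos_cliqueAvoiding huv.ne' (by norm_num) hcl clique_top

/-- For every `C` there is a `10`-critical graph without `K_9` on `n` vertices with at most
`5 * n - C` edges. -/
theorem result : ∀ C : ℕ, ∃ (V : Type) (_ : Fintype V) (G : SimpleGraph V),
    IsCritical G 10 ∧ G.CliqueFree 9 ∧ G.edgeSet.ncard + C ≤ 5 * Fintype.card V := by
  intro C
  obtain ⟨V, _, G, u, v, huv, hEC, hcard, hedge, hcl⟩ := chain (C + 26)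
  have hne : (1 : Fin 14) ≠ 0 := by decide
  have h01 : B.Adj 0 1 := by
    show bAdj 0 1 = true
    decide
  have hc := hajos_card (V₁ := V) (V₂ := Fin 14) (x₂ := 0)
  have he := hajos_edges (G₁ := G) (G₂ := B) (hne := hne) huv h01
  have he2 := edges_B
  have hEC' : EC (hajos G B u v 0 1 hne) 9 := hajos_EC hEC EC_B huv h01
  have : Nonempty (V ⊕ {v : Fin 14 // v ≠ 0}) := ⟨Sum.inl u⟩
  refine ⟨V ⊕ {v : Fin 14 // v ≠ 0}, inferInstance, hajos G B u v 0 1 hne, hEC'.isCritical, ?_, ?_⟩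
  · intro T hT
    have h := hajos_cliqueAvoiding (G₁ := G) (G₂ := B) (hne := hne) (c := 0) (d := 0) huv.ne'
      (by norm_num : 3 ≤ 9) hcl (fun T hT h => clique_B T hT (fun a ha b hb hab => (h a ha b hb hab).1))
      T hT.card_eq
    apply h
    intro a ha b hb hab
    refine ⟨hT.isClique ha hb hab, ?_⟩
    rw [Ne, Sym2.eq_iff]
    rintro (h | h)
    · exact hab (h.1.trans h.2.symm)
    · exact hab (h.1.trans h.2.symm)
  · rw [Fintype.card_fin] at hc
    omega

end Pool.Agent.Results.MP_e338b6_co.HajosChain
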